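import Mathlib

/-!
Coordinatewise perturbation `x_i ↦ x_i + ε |x_i|` on `ℓ^p(ι)`, `ι` uncountable.
-/

set_option autoImplicit false

open Topology Filter
open scoped ENNReal

namespace Pool.Agent.N317.NG

variable {ι : Type} {p : ℝ≥0∞}

/-- inverse of `t ↦ t + ε |t|` -/
noncomputable def inv1 (ε : ℝ) (s : ℝ) : ℝ := if 0 ≤ s then s / (1 + ε) else s / (1 - ε)

lemma inv1_left {ε : ℝ} (h0 : 0 < ε) (h1 : ε < 1) (t : ℝ) : inv1 ε (t + ε * |t|) = t := by
  unfold inv1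
  rcases le_or_gt 0 t with h | h
  · rw [abs_of_nonneg h, if_pos (by positivity)]
    field_simp
  · rw [abs_of_neg h, if_neg (by nlinarith)]
    have : 1 - ε ≠ 0 := by linarith
    field_simp
    ring

lemma inv1_right {ε : ℝ} (h0 : 0 < ε) (h1 : ε < 1) (s : ℝ) : inv1 ε s + ε * |inv1 ε s| = s := by
  unfold inv1
  split_ifs with h
  · rw [abs_of_nonneg (by positivity)]
    field_simp
  · have h2 : 0 < 1 - ε := by linarith
    push Not at h
    have h3 : s / (1 - ε) < 0 := div_neg_of_neg_of_pos h h2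
    rw [abs_of_neg h3]
    field_simp
    ring

lemma est {ε : ℝ} (h0 : 0 < ε) (h1 : ε < 1) (s t : ℝ) :
    (1 - ε) * |s - t| ≤ |(s + ε * |s|) - (t + ε * |t|)| ∧
      |(s + ε * |s|) - (t + ε * |t|)| ≤ (1 + ε) * |s - t| := by
  have h2 : |(|s| - |t|)| ≤ |s - t| := abs_abs_sub_abs_le_abs_sub s t
  have e : (s + ε * |s|) - (t + ε * |t|) = (s - t) + ε * (|s| - |t|) := by ring
  rw [e]
  have h3 : |ε * (|s| - |t|)| ≤ ε * |s - t| := by
    rw [abs_mul, abs_of_pos h0]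
    exact mul_le_mul_of_nonneg_left h2 h0.le
  constructor
  · have := abs_sub_abs_le_abs_add (s - t) (ε * (|s| - |t|))
    linarith
  · have := abs_add_le (s - t) (ε * (|s| - |t|))
    linarith

lemma inv1_zero (ε : ℝ) : inv1 ε 0 = 0 := by simp [inv1]

lemma inv1_bound {ε : ℝ} (h0 : 0 < ε) (h1 : ε < 1) (s : ℝ) : |inv1 ε s| ≤ (1 - ε)⁻¹ * |s| := by
  have h := (est h0 h1 (inv1 ε s) 0).1
  rw [inv1_right h0 h1] at h
  simp only [abs_zero, mul_zero, add_zero, sub_zero] at h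
  have h2 : 0 < 1 - ε := by linarith
  rw [inv_mul_eq_div, le_div_iff₀ h2]
  linarith

lemma memlp_of_bound {f : ι → ℝ} (x : lp (fun _ : ι => ℝ) p) (C : ℝ)
    (h : ∀ i, |f i| ≤ C * |x i|) : Memℓp f p := by
  have h1 : Memℓp (fun i => C * x i) p := (lp.memℓp x).const_smul C
  refine h1.mono' fun i => ?_
  rw [Real.norm_eq_abs, Real.norm_eq_abs, abs_mul]
  exact (h i).trans (mul_le_mul_of_nonneg_right (le_abs_self C) (abs_nonneg _))

/-- the homeomorphism -/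
noncomputable def phi (p : ℝ≥0∞) (ε : ℝ) (h0 : 0 < ε) (h1 : ε < 1) :
    lp (fun _ : ι => ℝ) p ≃ lp (fun _ : ι => ℝ) p where
  toFun x := ⟨fun i => x i + ε * |x i|, memlp_of_bound x (1 + ε) fun i => by
    have h := (est h0 h1 (x i) 0).2
    simpa using h⟩
  invFun y := ⟨fun i => inv1 ε (y i), memlp_of_bound y (1 - ε)⁻¹ fun i => inv1_bound h0 h1 _⟩
  left_inv x := by
    apply Subtype.ext
    funext i
    exact inv1_left h0 h1 (x i)
  right_inv y := by
    apply Subtype.ext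
    funext i
    exact inv1_right h0 h1 (y i)

lemma phi_apply (ε : ℝ) (h0 : 0 < ε) (h1 : ε < 1) (x : lp (fun _ : ι => ℝ) p) (i : ι) :
    phi p ε h0 h1 x i = x i + ε * |x i| := rfl

lemma norm_le_of (hp : p ≠ 0) [Fact (1 ≤ p)] (C : ℝ) (hC : 0 ≤ C) (x y : lp (fun _ : ι => ℝ) p)
    (h : ∀ i, |x i| ≤ C * |y i|) : ‖x‖ ≤ C * ‖y‖ := by
  have h1 : ‖x‖ ≤ ‖C • y‖ := lp.norm_mono hp fun i => by
    rw [lp.coeFn_smul, Pi.smul_apply, norm_smul, Real.norm_eq_abs, Real.norm_eq_abs,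
      Real.norm_eq_abs, abs_of_nonneg hC]
    exact h i
  rwa [norm_smul, Real.norm_eq_abs, abs_of_nonneg hC] at h1

lemma phi_upper [Fact (1 ≤ p)] (hp : p ≠ 0) (ε : ℝ) (h0 : 0 < ε) (h1 : ε < 1)
    (x y : lp (fun _ : ι => ℝ) p) : ‖phi p ε h0 h1 x - phi p ε h0 h1 y‖ ≤ (1 + ε) * ‖x - y‖ := by
  refine norm_le_of hp _ (by linarith) _ _ fun i => ?_
  exact (est h0 h1 (x i) (y i)).2

lemma phi_lower [Fact (1 ≤ p)] (hp : p ≠ 0) (ε : ℝ) (h0 : 0 < ε) (h1 : ε < 1)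
    (x y : lp (fun _ : ι => ℝ) p) : (1 - ε) * ‖x - y‖ ≤ ‖phi p ε h0 h1 x - phi p ε h0 h1 y‖ := by
  have h2 : 0 < 1 - ε := by linarith
  have := norm_le_of hp (1 - ε)⁻¹ (by positivity) (x - y) (phi p ε h0 h1 x - phi p ε h0 h1 y)
    fun i => ?_
  · rw [inv_mul_eq_div, le_div_iff₀ h2] at this
    linarith
  · rw [inv_mul_eq_div, le_div_iff₀ h2]
    have := (est h0 h1 (x i) (y i)).1
    calc |(x - y) i| * (1 - ε) = (1 - ε) * |x i - y i| := by
          rw [mul_comm]; rfl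
      _ ≤ _ := this

/-- no two-sided directional derivative in the direction of a unit vector off the support -/
lemma no_deriv [Fact (1 ≤ p)] (hp : p ≠ 0) (ε : ℝ) (h0 : 0 < ε) (h1 : ε < 1)
    (x : lp (fun _ : ι => ℝ) p) (i : ι) (hi : x i = 0) (h : lp (fun _ : ι => ℝ) p) (hh : h i = 1)
    (v : lp (fun _ : ι => ℝ) p)
    (ht : Tendsto (fun t : ℝ => t⁻¹ • (phi p ε h0 h1 (x + t • h) - phi p ε h0 h1 x))
      (𝓝[≠] 0) (𝓝 v)) : False := by
  have hc : Continuous fun w : lp (fun _ : ι => ℝ) p => w i := by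
    refine LipschitzWith.continuous (K := 1) ?_
    refine LipschitzWith.of_dist_le_mul fun a b => ?_
    rw [Real.dist_eq, dist_eq_norm, NNReal.coe_one, one_mul]
    exact lp.norm_apply_le_norm hp (a - b) i
  have h2 : Tendsto (fun t : ℝ => t⁻¹ * (t + ε * |t|)) (𝓝[≠] 0) (𝓝 (v i)) := by
    refine ((hc.tendsto v).comp ht).congr fun t => ?_
    have e1 : (t⁻¹ • (phi p ε h0 h1 (x + t • h) - phi p ε h0 h1 x)) i
        = t⁻¹ * ((phi p ε h0 h1 (x + t • h)) i - (phi p ε h0 h1 x) i) := rfl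
    have e2 : (x + t • h) i = x i + t * h i := rfl
    change (t⁻¹ • (phi p ε h0 h1 (x + t • h) - phi p ε h0 h1 x)) i = _
    rw [e1, phi_apply, phi_apply, e2, hi, hh]
    simp
  have h3 : Tendsto (fun t : ℝ => t⁻¹ * (t + ε * |t|)) (𝓝[>] 0) (𝓝 (v i)) :=
    h2.mono_left (nhdsWithin_mono _ fun t ht => ne_of_gt ht)
  have h4 : Tendsto (fun t : ℝ => t⁻¹ * (t + ε * |t|)) (𝓝[<] 0) (𝓝 (v i)) :=
    h2.mono_left (nhdsWithin_mono _ fun t ht => ne_of_lt ht)
  have h5 : Tendsto (fun t : ℝ => t⁻¹ * (t + ε * |t|)) (𝓝[>] 0) (𝓝 (1 + ε)) := by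
    refine tendsto_const_nhds.congr' ?_
    filter_upwards [self_mem_nhdsWithin] with t ht
    have ht' : 0 < t := ht
    rw [abs_of_pos ht']
    field_simp
  have h6 : Tendsto (fun t : ℝ => t⁻¹ * (t + ε * |t|)) (𝓝[<] 0) (𝓝 (1 - ε)) := by
    refine tendsto_const_nhds.congr' ?_
    filter_upwards [self_mem_nhdsWithin] with t ht
    have ht' : t < 0 := ht
    rw [abs_of_neg ht']
    have : t ≠ 0 := ht'.ne
    field_simp
    ring
  have h7 := tendsto_nhds_unique h3 h5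
  have h8 := tendsto_nhds_unique h4 h6
  linarith

lemma exists_zero [Uncountable ι] (hp : 0 < p.toReal) (x : lp (fun _ : ι => ℝ) p) :
    ∃ i, x i = 0 := by
  by_contra hcon
  push Not at hcon
  have h1 : Summable fun i => ‖x i‖ ^ p.toReal := (memℓp_gen_iff hp).1 (lp.memℓp x)
  have h2 := h1.countable_support
  have h3 : Function.support (fun i => ‖x i‖ ^ p.toReal) = Set.univ := by
    ext i
    simp only [Function.mem_support, Set.mem_univ, iff_true]
    have : 0 < ‖x i‖ := norm_pos_iff.2 (hcon i)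
    positivity
  rw [h3] at h2
  exact (not_countable (α := ι)) (Set.countable_univ_iff.1 h2)

end Pool.Agent.N317.NG
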